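import Pool.Agent.H32.QMain

/-!
From the two zeros of the parametric numerator to the congruence modulo `Phi_n(q)^2`.
-/

namespace Pool.Agent.H32.QFinal

open Finset Polynomial Pool.Agent.H32.QMain

lemma two_zero_dvd {R : Type*} [CommRing R] [IsDomain R] {K : Type*} [Field K] (φ : R →+* K)
    (hφ : Function.Injective φ) (F : R[X]) (b : R) (hb : b ≠ 0) (hb2 : b ^ 2 ≠ 1)
    (h1 : F.eval b = 0) (h2 : F.eval₂ φ (φ b)⁻¹ = 0) : (1 - b) ^ 2 ∣ F.eval 1 := by
  obtain ⟨G, hG⟩ := dvd_iff_isRoot.mpr h1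
  have hb' : φ b ≠ 0 := by
    intro h
    exact hb (hφ (by rw [h, map_zero]))
  have h3 : G.eval₂ φ (φ b)⁻¹ = 0 := by
    rw [hG, eval₂_mul, eval₂_sub, eval₂_X, eval₂_C] at h2
    rcases mul_eq_zero.mp h2 with h | h
    · exfalso
      apply hb2
      apply hφ
      rw [map_pow, map_one]
      have h' : (φ b)⁻¹ = φ b := sub_eq_zero.mp h
      calc φ b ^ 2 = φ b * φ b := sq _
        _ = (φ b)⁻¹ * φ b := by rw [h']
        _ = 1 := inv_mul_cancel₀ hb'
    · exact h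
  have h4 : G.reverse.eval b = 0 := by
    apply hφ
    rw [map_zero, ← eval₂_at_apply]
    let _ : Invertible ((φ b)⁻¹) := invertibleOfNonzero (inv_ne_zero hb')
    have := (eval₂_reverse_eq_zero_iff φ ((φ b)⁻¹) G).mpr h3
    rwa [invOf_eq_inv, inv_inv] at this
  have h5 : G.reverse.eval 1 = G.eval 1 := by
    let _ : Invertible (1 : R) := invertibleOne
    have := eval₂_reverse_mul_pow (RingHom.id R) (1 : R) G
    simpa [eval₂_id] using this
  have h6 : (1 - b) ∣ G.eval 1 := by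
    rw [← h5]
    have := sub_dvd_eval_sub 1 b G.reverse
    rwa [h4, sub_zero] at this
  obtain ⟨c, hc⟩ := h6
  refine ⟨c, ?_⟩
  rw [hG, eval_mul, eval_sub, eval_X, eval_C, hc]
  ring

/-- The parametric numerator as a polynomial in the parameter over `ℤ[q]`. -/
noncomputable def F (r : ℕ → ℕ) (m d' n : ℕ) : (ℤ[X])[X] :=
  ∑ k ∈ range n, (C (X ^ (m * k) : ℤ[X]) : (ℤ[X])[X]) *
    (∏ i ∈ range (d' + 1), ∏ j ∈ range k,
      (X ^ m - C (X ^ (r i + m * j)) * X ^ (∑ l ∈ range i, r l + ∑ l ∈ range (i + 1), r l))) *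
    ((∏ j ∈ Ico k (n - 1), (X ^ m - C (X ^ (m * (j + 1))) * X ^ m)) *
      ∏ i ∈ range d', ∏ j ∈ Ico k (n - 1),
        (X ^ m - C (X ^ (m * (j + 1))) * X ^ (2 * ∑ l ∈ range (i + 1), r l)))

lemma eval₂_F {K : Type*} [Field K] (φ : ℤ[X] →+* K) (A : K) (r : ℕ → ℕ) (m d' n : ℕ) :
    (F r m d' n).eval₂ φ A = Fval (φ X) A r m d' n := by
  unfold F Fval
  simp only [eval₂_finsetSum, eval₂_mul, eval₂_finsetProd, eval₂_sub, eval₂_C, eval₂_X,
    eval₂_pow, map_pow]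

/-- The numerator of the truncated sum. -/
noncomputable def Num (r : ℕ → ℕ) (m d' n : ℕ) : ℤ[X] :=
  ∑ k ∈ range n, X ^ (m * k) *
    (∏ i ∈ range (d' + 1), ∏ j ∈ range k, (1 - X ^ (r i + m * j))) *
    (∏ j ∈ Ico k (n - 1), (1 - X ^ (m * (j + 1)))) ^ (d' + 1)

lemma eval_one_F (r : ℕ → ℕ) (m d' n : ℕ) : (F r m d' n).eval 1 = Num r m d' n := by
  unfold F Num
  simp only [eval_finsetSum, eval_mul, eval_prod, eval_sub, eval_C, eval_X,
    eval_pow, one_pow, mul_one, prod_const, card_range]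
  refine sum_congr rfl fun k _ => ?_
  ring

theorem sq_dvd_Num (r : ℕ → ℕ) (m d' n t : ℕ) (hr : ∀ i ≤ d', 1 ≤ r i)
    (hm : m = ∑ i ∈ range (d' + 1), r i) (hd : 2 ≤ d') (hn : n + 1 = m * t) (hn0 : 0 < n) :
    (1 - X ^ n : ℤ[X]) ^ 2 ∣ Num r m d' n := by
  rw [← eval_one_F]
  set φ := algebraMap ℤ[X] (FractionRing ℤ[X]) with hφ
  have hinj : Function.Injective φ := IsFractionRing.injective _ _
  have hX : ∀ j : ℕ, 0 < j → (X : ℤ[X]) ^ j ≠ 1 := by
    intro j hj h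
    have := congrArg natDegree h
    rw [natDegree_X_pow, natDegree_one] at this
    omega
  have hq0 : φ X ≠ 0 := by
    intro h
    exact X_ne_zero (hinj (by rw [h, map_zero]))
  have hq : ∀ j : ℕ, 0 < j → (φ X) ^ j ≠ 1 := by
    intro j hj h
    exact hX j hj (hinj (by rw [map_pow, h, map_one]))
  refine two_zero_dvd φ hinj _ (X ^ n) (pow_ne_zero _ X_ne_zero) ?_ ?_ ?_
  · rw [← pow_mul]
    exact hX _ (by omega)
  · apply hinj
    rw [map_zero, ← eval₂_at_apply, eval₂_F, map_pow]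
    exact Fval_zero_left (φ X) hq0 hq r m d' n t hr hm hd hn
  · rw [eval₂_F, map_pow]
    exact Fval_zero_right (φ X) hq0 hq r m d' n t hr hm hd hn

lemma cyclotomic_not_dvd {n m t : ℕ} (hn : n + 1 = m * t) {j : ℕ} (hj : 0 < j) (hjn : j < n) :
    ¬ cyclotomic n ℤ ∣ (1 - X ^ (m * j) : ℤ[X]) := by
  intro h
  have hn0 : n ≠ 0 := by omega
  set ζ : ℂ := Complex.exp (2 * Real.pi * Complex.I / n) with hζ
  have hprim : IsPrimitiveRoot ζ n := Complex.isPrimitiveRoot_exp n hn0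
  have h1 : (cyclotomic n ℂ).eval ζ = 0 := by
    haveI : NeZero (n : ℂ) := ⟨by exact_mod_cast hn0⟩
    exact isRoot_cyclotomic_iff.mpr hprim
  obtain ⟨c, hc⟩ := h
  have h2 := congrArg (fun p => eval₂ (Int.castRingHom ℂ) ζ p) hc
  simp only [eval₂_sub, eval₂_one, eval₂_pow, eval₂_X, eval₂_mul] at h2
  have h3 : eval₂ (Int.castRingHom ℂ) ζ (cyclotomic n ℤ) = 0 := by
    rw [← eval_map, map_cyclotomic]
    exact h1
  rw [h3, zero_mul, sub_eq_zero] at h2
  have h4 : n ∣ m * j := (hprim.pow_eq_one_iff_dvd _).mp h2.symm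
  have hcop : Nat.Coprime n m := by
    have hg : Nat.gcd n m ∣ 1 := by
      have h5 : Nat.gcd n m ∣ n + 1 := by
        rw [hn]; exact (Nat.gcd_dvd_right n m).mul_right t
      exact (Nat.dvd_add_right (Nat.gcd_dvd_left n m)).mp h5
    exact Nat.dvd_one.mp hg
  have h6 : n ∣ j := hcop.dvd_of_dvd_mul_left h4
  exact absurd (Nat.le_of_dvd hj h6) (by omega)

/-- General form: `r_0 + ... + r_{d'} = m`, `n = m t - 1`. -/
theorem general (r : ℕ → ℕ) (m d' n t : ℕ) (hr : ∀ i ≤ d', 1 ≤ r i)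
    (hm : m = ∑ i ∈ range (d' + 1), r i) (hd : 2 ≤ d') (hn : n + 1 = m * t) (hn0 : 1 < n)
    (q : FractionRing ℤ[X]) (hq : q = algebraMap ℤ[X] (FractionRing ℤ[X]) X) :
    ∃ N D : ℤ[X], IsRelPrime D (cyclotomic n ℤ) ∧ (cyclotomic n ℤ) ^ 2 ∣ N ∧
      ∑ k ∈ range n, (∏ i ∈ range (d' + 1), ∏ j ∈ range k, (1 - q ^ (r i) * (q ^ m) ^ j)) /
        (∏ j ∈ range k, (1 - q ^ m * (q ^ m) ^ j)) ^ (d' + 1) * (q ^ m) ^ k
      = algebraMap ℤ[X] (FractionRing ℤ[X]) N / algebraMap ℤ[X] (FractionRing ℤ[X]) D := by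
  set φ := algebraMap ℤ[X] (FractionRing ℤ[X]) with hφ
  have hinj : Function.Injective φ := IsFractionRing.injective _ _
  have hX : ∀ j : ℕ, 0 < j → (X : ℤ[X]) ^ j ≠ 1 := by
    intro j hj h
    have := congrArg natDegree h
    rw [natDegree_X_pow, natDegree_one] at this
    omega
  have hq' : ∀ j : ℕ, 0 < j → q ^ j ≠ 1 := by
    intro j hj h
    rw [hq] at h
    exact hX j hj (hinj (by rw [map_pow, h, map_one]))
  have hm0 : 0 < m := by
    rcases Nat.eq_zero_or_pos m with h | h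
    · rw [h] at hn; omega
    · exact h
  have hirr : Irreducible (cyclotomic n ℤ) := cyclotomic.irreducible (by omega)
  have hprime : Prime (cyclotomic n ℤ) := hirr.prime
  set D : ℤ[X] := (∏ j ∈ range (n - 1), (1 - X ^ (m * (j + 1)))) ^ (d' + 1) with hD
  have hDnd : ¬ cyclotomic n ℤ ∣ D := by
    intro h
    rw [hD] at h
    have h1 := hprime.dvd_of_dvd_pow h
    obtain ⟨j, hj, hj'⟩ := (hprime.dvd_finsetProd_iff _).mp h1
    rw [mem_range] at hj
    exact cyclotomic_not_dvd hn (Nat.succ_pos j) (by omega) hj'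
  have hDrel : IsRelPrime D (cyclotomic n ℤ) :=
    ((hirr.isRelPrime_iff_not_dvd).mpr hDnd).symm
  have hD0 : D ≠ 0 := by
    rintro h
    exact hDnd (h ▸ dvd_zero _)
  refine ⟨Num r m d' n, D, hDrel, ?_, ?_⟩
  · refine dvd_trans (pow_dvd_pow_of_dvd ?_ 2) (sq_dvd_Num r m d' n t hr hm hd hn (by omega))
    have h1 : cyclotomic n ℤ ∣ X ^ n - 1 := cyclotomic.dvd_X_pow_sub_one n ℤ
    have h2 : (1 - X ^ n : ℤ[X]) = -(X ^ n - 1) := by ring
    rw [h2]
    exact (dvd_neg).mpr h1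
  · have hφD : φ D ≠ 0 := by
      intro h
      exact hD0 (hinj (by rw [h, map_zero]))
    rw [eq_div_iff hφD, sum_mul]
    rw [Num, map_sum]
    refine sum_congr rfl fun k hk => ?_
    have hk' : k ≤ n - 1 := by rw [mem_range] at hk; omega
    have e1 : φ D = (∏ j ∈ range k, (1 - q ^ m * (q ^ m) ^ j)) ^ (d' + 1) *
        (∏ j ∈ Ico k (n - 1), (1 - q ^ (m * (j + 1)))) ^ (d' + 1) := by
      rw [hD, map_pow, map_prod, ← mul_pow]
      congr 1
      rw [← prod_range_mul_prod_Ico _ hk']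
      congr 1
      · refine prod_congr rfl fun j _ => ?_
        rw [map_sub, map_one, map_pow, ← hq, ← pow_succ', ← pow_mul]
      · refine prod_congr rfl fun j _ => ?_
        rw [map_sub, map_one, map_pow, ← hq]
    have e2 : (∏ j ∈ range k, (1 - q ^ m * (q ^ m) ^ j)) ≠ 0 := by
      refine prod_ne_zero_iff.mpr fun j _ => ?_
      rw [← pow_succ', ← pow_mul]
      intro h
      exact hq' _ (Nat.mul_pos hm0 (Nat.succ_pos j)) (sub_eq_zero.mp h).symm
    have e3 : φ (X ^ (m * k) * (∏ i ∈ range (d' + 1), ∏ j ∈ range k, (1 - X ^ (r i + m * j))) *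
        (∏ j ∈ Ico k (n - 1), (1 - X ^ (m * (j + 1)))) ^ (d' + 1))
        = (q ^ m) ^ k * (∏ i ∈ range (d' + 1), ∏ j ∈ range k, (1 - q ^ (r i) * (q ^ m) ^ j)) *
        (∏ j ∈ Ico k (n - 1), (1 - q ^ (m * (j + 1)))) ^ (d' + 1) := by
      rw [map_mul, map_mul, map_pow, map_pow, map_prod, map_prod, ← hq, ← pow_mul]
      congr 2
      · refine prod_congr rfl fun i _ => ?_
        rw [map_prod]
        refine prod_congr rfl fun j _ => ?_
        rw [map_sub, map_one, map_pow, ← hq, pow_add, pow_mul]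
      · refine prod_congr rfl fun j _ => ?_
        rw [map_sub, map_one, map_pow, ← hq]
    rw [e3, e1]
    have e4 : (∏ j ∈ range k, (1 - q ^ m * (q ^ m) ^ j)) ^ (d' + 1) ≠ 0 := pow_ne_zero _ e2
    field_simp

end Pool.Agent.H32.QFinal
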