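import Mathlib

/-!
Karlsson-Minton type vanishing sum, in the form needed for the q-congruence.
-/

namespace Pool.Agent.H32.QKM

open Finset

variable {K : Type*} [Field K]

/-- the coefficient `(Q^{-N};Q)_k/(Q;Q)_k` -/
noncomputable def c (Q : K) (N k : ℕ) : K :=
  ∏ j ∈ range k, ((1 - Q ^ j / Q ^ N) / (1 - Q ^ (j + 1)))

lemma c_zero (Q : K) (N : ℕ) : c Q N 0 = 1 := by simp [c]

lemma c_succ (Q : K) (N k : ℕ) :
    c Q N (k + 1) = c Q N k * ((1 - Q ^ k / Q ^ N) / (1 - Q ^ (k + 1))) := by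
  unfold c
  rw [prod_range_succ]

lemma c_eq_zero (Q : K) (hQ0 : Q ≠ 0) {N k : ℕ} (h : N < k) : c Q N k = 0 := by
  unfold c
  refine prod_eq_zero (mem_range.mpr h) ?_
  rw [div_self (pow_ne_zero _ hQ0)]
  simp

/-- Pascal type recurrence -/
lemma c_rec (Q : K) (hQ0 : Q ≠ 0) (hQ : ∀ j : ℕ, 0 < j → Q ^ j ≠ 1) (N k : ℕ) :
    c Q (N + 1) (k + 1) = c Q N (k + 1) - c Q N k / Q ^ (N + 1) := by
  induction k with
  | zero =>
    have h1 : (1 : K) - Q ≠ 0 := by
      have := hQ 1 one_pos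
      intro h
      apply this
      rw [pow_one]
      exact (sub_eq_zero.mp h).symm
    simp only [c_succ, c_zero, pow_zero, one_mul, zero_add, pow_one]
    field_simp
    ring
  | succ k ih =>
    rw [c_succ Q (N + 1) (k + 1), ih, c_succ Q N (k + 1), c_succ Q N k]
    have h1 : (1 : K) - Q ^ (k + 1) ≠ 0 := by
      intro h
      exact hQ (k + 1) (Nat.succ_pos _) (sub_eq_zero.mp h).symm
    have h2 : (1 : K) - Q ^ (k + 1 + 1) ≠ 0 := by
      intro h
      exact hQ (k + 1 + 1) (Nat.succ_pos _) (sub_eq_zero.mp h).symm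
    have h3 : Q ^ N ≠ 0 := pow_ne_zero _ hQ0
    have h4 : Q ^ (N + 1) ≠ 0 := pow_ne_zero _ hQ0
    field_simp
    ring

/-- finite q-binomial theorem -/
lemma qbinom (Q : K) (hQ0 : Q ≠ 0) (hQ : ∀ j : ℕ, 0 < j → Q ^ j ≠ 1) (N : ℕ) (z : K) :
    ∑ k ∈ range (N + 1), c Q N k * z ^ k = ∏ i ∈ range N, (1 - z / Q ^ (i + 1)) := by
  induction N with
  | zero => simp [c_zero]
  | succ N ih =>
    rw [prod_range_succ, ← ih, sum_range_succ']
    have e1 : ∑ k ∈ range (N + 1), c Q (N + 1) (k + 1) * z ^ (k + 1)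
        = ∑ k ∈ range (N + 1), c Q N (k + 1) * z ^ (k + 1)
          - z / Q ^ (N + 1) * ∑ k ∈ range (N + 1), c Q N k * z ^ k := by
      rw [mul_sum, ← sum_sub_distrib]
      refine sum_congr rfl fun k _ => ?_
      rw [c_rec Q hQ0 hQ]
      ring
    rw [e1]
    have e2 : ∑ k ∈ range (N + 1), c Q N (k + 1) * z ^ (k + 1) + c Q N 0 * z ^ 0
        = ∑ k ∈ range (N + 1), c Q N k * z ^ k := by
      rw [← sum_range_succ' (fun k => c Q N k * z ^ k), sum_range_succ,
        c_eq_zero Q hQ0 (Nat.lt_succ_self N)]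
      simp
    have e3 : c Q (N + 1) 0 * z ^ 0 = c Q N 0 * z ^ 0 := by simp [c_zero]
    rw [e3, sub_add_eq_add_sub, e2]
    ring

lemma sum_c_pow (Q : K) (hQ0 : Q ≠ 0) (hQ : ∀ j : ℕ, 0 < j → Q ^ j ≠ 1) {N l : ℕ} (hl : l < N) :
    ∑ k ∈ range (N + 1), c Q N k * Q ^ k * (Q ^ k) ^ l = 0 := by
  have := qbinom Q hQ0 hQ N (Q ^ (l + 1))
  rw [prod_eq_zero (mem_range.mpr hl) (by rw [div_self (pow_ne_zero _ hQ0)]; simp)] at this
  rw [← this]
  refine sum_congr rfl fun k _ => ?_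
  ring

/-- Vanishing for a polynomial of degree `< N`. -/
lemma sum_c_poly (Q : K) (hQ0 : Q ≠ 0) (hQ : ∀ j : ℕ, 0 < j → Q ^ j ≠ 1) {N n : ℕ} (hNn : N < n)
    (P : Polynomial K) (hP : P.natDegree < N) :
    ∑ k ∈ range n, c Q N k * Q ^ k * P.eval (Q ^ k) = 0 := by
  have e0 : ∑ k ∈ range n, c Q N k * Q ^ k * P.eval (Q ^ k)
      = ∑ k ∈ range (N + 1), c Q N k * Q ^ k * P.eval (Q ^ k) := by
    symm
    refine sum_subset (range_subset_range.mpr hNn) ?_
    intro k _ hk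
    rw [mem_range, not_lt] at hk
    rw [c_eq_zero Q hQ0 hk]
    ring
  rw [e0]
  simp_rw [Polynomial.eval_eq_sum_range' hP, mul_sum]
  rw [sum_comm]
  refine sum_eq_zero fun l hl => ?_
  have := sum_c_pow Q hQ0 hQ (mem_range.mp hl)
  calc ∑ k ∈ range (N + 1), c Q N k * Q ^ k * (P.coeff l * (Q ^ k) ^ l)
      = P.coeff l * ∑ k ∈ range (N + 1), c Q N k * Q ^ k * (Q ^ k) ^ l := by
        rw [mul_sum]; exact sum_congr rfl fun k _ => by ring
    _ = 0 := by rw [this, mul_zero]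

/-- The Karlsson-Minton type sum, cleared of denominators. -/
theorem km (Q : K) (hQ0 : Q ≠ 0) (hQ : ∀ j : ℕ, 0 < j → Q ^ j ≠ 1) {N n : ℕ} (hNn : N < n)
    (s : Finset ℕ) (β : ℕ → K) (e : ℕ → ℕ) (he : ∑ i ∈ s, e i < N) :
    ∑ k ∈ range n, Q ^ k * ((∏ j ∈ range k, (1 - Q ^ j / Q ^ N)) *
      (∏ j ∈ Ico k (n - 1), (1 - Q ^ (j + 1)))) *
      ∏ i ∈ s, ∏ u ∈ range (e i), (1 - β i * Q ^ (k + u)) = 0 := by
  classical
  set P : Polynomial K := ∏ i ∈ s, ∏ u ∈ range (e i),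
    (1 - Polynomial.C (β i * Q ^ u) * Polynomial.X) with hPdef
  have hdeg : P.natDegree < N := by
    refine lt_of_le_of_lt ?_ he
    rw [hPdef]
    refine (Polynomial.natDegree_prod_le _ _).trans ?_
    refine sum_le_sum fun i _ => ?_
    refine (Polynomial.natDegree_prod_le _ _).trans ?_
    calc ∑ u ∈ range (e i), (1 - Polynomial.C (β i * Q ^ u) * Polynomial.X).natDegree
        ≤ ∑ u ∈ range (e i), 1 := by
          refine sum_le_sum fun u _ => ?_
          refine (Polynomial.natDegree_sub_le _ _).trans ?_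
          simp only [Polynomial.natDegree_one]
          refine max_le (Nat.zero_le _) ?_
          refine Polynomial.natDegree_C_mul_le _ _ |>.trans ?_
          simp
      _ = e i := by simp
  have main := sum_c_poly Q hQ0 hQ hNn P hdeg
  have hn : n - 1 + 1 = n := by omega
  have key : ∀ k ∈ range n, Q ^ k * ((∏ j ∈ range k, (1 - Q ^ j / Q ^ N)) *
      (∏ j ∈ Ico k (n - 1), (1 - Q ^ (j + 1)))) *
      ∏ i ∈ s, ∏ u ∈ range (e i), (1 - β i * Q ^ (k + u))
      = (∏ j ∈ range (n - 1), (1 - Q ^ (j + 1))) * (c Q N k * Q ^ k * P.eval (Q ^ k)) := by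
    intro k hk
    have hk' : k ≤ n - 1 := by rw [mem_range] at hk; omega
    have h1 : P.eval (Q ^ k) = ∏ i ∈ s, ∏ u ∈ range (e i), (1 - β i * Q ^ (k + u)) := by
      rw [hPdef, Polynomial.eval_prod]
      refine prod_congr rfl fun i _ => ?_
      rw [Polynomial.eval_prod]
      refine prod_congr rfl fun u _ => ?_
      simp only [Polynomial.eval_sub, Polynomial.eval_one, Polynomial.eval_mul,
        Polynomial.eval_C, Polynomial.eval_X]
      rw [pow_add]
      ring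
    have h2 : (∏ j ∈ range (n - 1), (1 - Q ^ (j + 1)))
        = (∏ j ∈ range k, (1 - Q ^ (j + 1))) * ∏ j ∈ Ico k (n - 1), (1 - Q ^ (j + 1)) :=
      (prod_range_mul_prod_Ico _ hk').symm
    have h3 : (∏ j ∈ range k, (1 - Q ^ (j + 1))) * c Q N k
        = ∏ j ∈ range k, (1 - Q ^ j / Q ^ N) := by
      unfold c
      rw [← prod_mul_distrib]
      refine prod_congr rfl fun j _ => ?_
      refine mul_div_cancel₀ _ ?_
      intro h
      exact hQ (j + 1) (Nat.succ_pos _) (sub_eq_zero.mp h).symm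
    rw [h1, h2, ← h3]
    ring
  rw [sum_congr rfl key, ← mul_sum, main, mul_zero]

/-- rearrangement of the pair of products -/
lemma prod_swap (E : ℕ → K) {A k n : ℕ} (hA : 1 ≤ A) (hAn : A ≤ n) (hk : k < n) :
    (∏ u ∈ Ico A (A + k), E u) * (∏ u ∈ Ico (k + 1) n, E u)
      = (∏ u ∈ Ico A n, E u) * ∏ u ∈ Ico (k + 1) (k + A), E u := by
  rcases le_total (A + k) n with h | h
  · rw [← prod_Ico_consecutive E (show A ≤ A + k by omega) h,
      ← prod_Ico_consecutive E (show k + 1 ≤ k + A by omega) (show k + A ≤ n by omega)]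
    rw [add_comm A k]
    ring
  · rw [← prod_Ico_consecutive E hAn h,
      ← prod_Ico_consecutive E (show k + 1 ≤ n by omega) (show n ≤ k + A by omega)]
    rw [add_comm A k]
    ring

end Pool.Agent.H32.QKM
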