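import Pool.Agent.H32.QKM

/-!
The parametric numerator and its two zeros.
-/

namespace Pool.Agent.H32.QMain

open Finset Pool.Agent.H32.QKM

section field

variable {K : Type*} [Field K]

lemma assembly (Q : K) (hQ0 : Q ≠ 0) (hQ : ∀ j : ℕ, 0 < j → Q ^ j ≠ 1) {N n : ℕ} (hNn : N < n)
    (d' : ℕ) (β : ℕ → K) (a : ℕ → ℕ) (ha1 : ∀ i < d', 1 ≤ a i) (han : ∀ i < d', a i ≤ n)
    (hsum : ∑ i ∈ range d', (a i - 1) < N) (M : K) :
    ∑ k ∈ range n, Q ^ k *
      ((∏ j ∈ range k, (M * (1 - Q ^ j / Q ^ N))) *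
        ∏ i ∈ range d', ∏ j ∈ range k, (M * (1 - β i * Q ^ (a i + j)))) *
      ((∏ j ∈ Ico k (n - 1), (M * (1 - Q ^ (j + 1)))) *
        ∏ i ∈ range d', ∏ j ∈ Ico k (n - 1), (M * (1 - β i * Q ^ (j + 1)))) = 0 := by
  have main := km Q hQ0 hQ hNn (range d') β (fun i => a i - 1) hsum
  have key : ∀ k ∈ range n, Q ^ k *
      ((∏ j ∈ range k, (M * (1 - Q ^ j / Q ^ N))) *
        ∏ i ∈ range d', ∏ j ∈ range k, (M * (1 - β i * Q ^ (a i + j)))) *
      ((∏ j ∈ Ico k (n - 1), (M * (1 - Q ^ (j + 1)))) *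
        ∏ i ∈ range d', ∏ j ∈ Ico k (n - 1), (M * (1 - β i * Q ^ (j + 1))))
      = (M ^ ((n - 1) * (d' + 1)) * ∏ i ∈ range d', ∏ u ∈ Ico (a i) n, (1 - β i * Q ^ u)) *
        (Q ^ k * ((∏ j ∈ range k, (1 - Q ^ j / Q ^ N)) *
          (∏ j ∈ Ico k (n - 1), (1 - Q ^ (j + 1)))) *
          ∏ i ∈ range d', ∏ u ∈ range (a i - 1), (1 - β i * Q ^ (k + 1 + u))) := by
    intro k hk
    have hkn : k < n := mem_range.mp hk
    have h1 : ∀ i ∈ range d', (∏ j ∈ range k, (M * (1 - β i * Q ^ (a i + j)))) *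
        (∏ j ∈ Ico k (n - 1), (M * (1 - β i * Q ^ (j + 1))))
        = M ^ (n - 1) * ((∏ u ∈ Ico (a i) n, (1 - β i * Q ^ u)) *
          ∏ u ∈ range (a i - 1), (1 - β i * Q ^ (k + 1 + u))) := by
      intro i hi
      have hi' := mem_range.mp hi
      have e1 : (∏ j ∈ range k, (M * (1 - β i * Q ^ (a i + j))))
          = M ^ k * ∏ u ∈ Ico (a i) (a i + k), (1 - β i * Q ^ u) := by
        rw [prod_mul_distrib, prod_const, card_range, prod_Ico_eq_prod_range]
        congr 2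
        rw [Nat.add_sub_cancel_left]
      have e2 : (∏ j ∈ Ico k (n - 1), (M * (1 - β i * Q ^ (j + 1))))
          = M ^ (n - 1 - k) * ∏ u ∈ Ico (k + 1) n, (1 - β i * Q ^ u) := by
        rw [prod_mul_distrib, prod_const, Nat.card_Ico]
        congr 1
        have := prod_Ico_add' (fun u => (1 - β i * Q ^ u)) k (n - 1) 1
        rw [this]
        congr 2
        omega
      have e3 : (∏ u ∈ Ico (k + 1) (k + a i), (1 - β i * Q ^ u))
          = ∏ u ∈ range (a i - 1), (1 - β i * Q ^ (k + 1 + u)) := by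
        rw [prod_Ico_eq_prod_range]
        congr 2
        omega
      have e4 := prod_swap (fun u => (1 - β i * Q ^ u)) (ha1 i hi') (han i hi') hkn
      rw [e1, e2, ← e3, ← e4]
      have e5 : M ^ (n - 1) = M ^ k * M ^ (n - 1 - k) := by
        rw [← pow_add]; congr 1; omega
      rw [e5]
      ring
    have h2 : (∏ j ∈ range k, (M * (1 - Q ^ j / Q ^ N))) *
        (∏ j ∈ Ico k (n - 1), (M * (1 - Q ^ (j + 1))))
        = M ^ (n - 1) * ((∏ j ∈ range k, (1 - Q ^ j / Q ^ N)) *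
          (∏ j ∈ Ico k (n - 1), (1 - Q ^ (j + 1)))) := by
      rw [prod_mul_distrib, prod_const, card_range, prod_mul_distrib, prod_const, Nat.card_Ico]
      have e5 : M ^ (n - 1) = M ^ k * M ^ (n - 1 - k) := by
        rw [← pow_add]; congr 1; omega
      rw [e5]
      ring
    have h3 : (∏ i ∈ range d', ∏ j ∈ range k, (M * (1 - β i * Q ^ (a i + j)))) *
        (∏ i ∈ range d', ∏ j ∈ Ico k (n - 1), (M * (1 - β i * Q ^ (j + 1))))
        = (M ^ (n - 1)) ^ d' * ((∏ i ∈ range d', ∏ u ∈ Ico (a i) n, (1 - β i * Q ^ u)) *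
          ∏ i ∈ range d', ∏ u ∈ range (a i - 1), (1 - β i * Q ^ (k + 1 + u))) := by
      rw [← prod_mul_distrib, prod_congr rfl h1, prod_mul_distrib, prod_const, card_range,
        prod_mul_distrib]
    have h4 : M ^ ((n - 1) * (d' + 1)) = M ^ (n - 1) * (M ^ (n - 1)) ^ d' := by
      rw [← pow_mul, ← pow_add]; congr 1; ring
    calc _ = Q ^ k * ((∏ j ∈ range k, (M * (1 - Q ^ j / Q ^ N))) *
        (∏ j ∈ Ico k (n - 1), (M * (1 - Q ^ (j + 1))))) *
        ((∏ i ∈ range d', ∏ j ∈ range k, (M * (1 - β i * Q ^ (a i + j)))) *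
        (∏ i ∈ range d', ∏ j ∈ Ico k (n - 1), (M * (1 - β i * Q ^ (j + 1))))) := by ring
      _ = _ := by
        rw [h2, h3, h4]; ring
  rw [sum_congr rfl key, ← mul_sum]
  have main' := km Q hQ0 hQ hNn (range d') (fun i => β i * Q) (fun i => a i - 1) hsum
  have e6 : ∀ k ∈ range n, (Q ^ k * ((∏ j ∈ range k, (1 - Q ^ j / Q ^ N)) *
          (∏ j ∈ Ico k (n - 1), (1 - Q ^ (j + 1)))) *
          ∏ i ∈ range d', ∏ u ∈ range (a i - 1), (1 - β i * Q ^ (k + 1 + u)))
      = Q ^ k * ((∏ j ∈ range k, (1 - Q ^ j / Q ^ N)) *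
          (∏ j ∈ Ico k (n - 1), (1 - Q ^ (j + 1)))) *
          ∏ i ∈ range d', ∏ u ∈ range (a i - 1), (1 - β i * Q * Q ^ (k + u)) := by
    intro k _
    congr 1
    refine prod_congr rfl fun i _ => prod_congr rfl fun u _ => ?_
    congr 1
    rw [mul_assoc, ← pow_succ']
    congr 2
    omega
  rw [sum_congr rfl e6, main', mul_zero]

/-- The two-parameter sum at a value `A` of the parameter. -/
noncomputable def Fval (q A : K) (r : ℕ → ℕ) (m d' n : ℕ) : K :=
  ∑ k ∈ range n, q ^ (m * k) *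
    (∏ i ∈ range (d' + 1), ∏ j ∈ range k,
      (A ^ m - q ^ (r i + m * j) * A ^ (∑ l ∈ range i, r l + ∑ l ∈ range (i + 1), r l))) *
    ((∏ j ∈ Ico k (n - 1), (A ^ m - q ^ (m * (j + 1)) * A ^ m)) *
      ∏ i ∈ range d', ∏ j ∈ Ico k (n - 1),
        (A ^ m - q ^ (m * (j + 1)) * A ^ (2 * ∑ l ∈ range (i + 1), r l)))

variable (q : K) (hq0 : q ≠ 0) (hq : ∀ j : ℕ, 0 < j → q ^ j ≠ 1)
  (r : ℕ → ℕ) (m d' n t : ℕ)

include hq0 hq

/-- first zero: `A = q^n`. -/
lemma Fval_zero_left (hr : ∀ i ≤ d', 1 ≤ r i) (hm : m = ∑ i ∈ range (d' + 1), r i)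
    (hd : 2 ≤ d') (hn : n + 1 = m * t) : Fval q (q ^ n) r m d' n = 0 := by
  have hm0 : 0 < m := by
    rcases Nat.eq_zero_or_pos m with h | h
    · rw [h] at hn; omega
    · exact h
  have ht0 : 0 < t := by
    rcases Nat.eq_zero_or_pos t with h | h
    · rw [h] at hn; omega
    · exact h
  set Q := q ^ m with hQdef
  have hQ0 : Q ≠ 0 := pow_ne_zero _ hq0
  have hQ : ∀ j : ℕ, 0 < j → Q ^ j ≠ 1 := by
    intro j hj
    rw [hQdef, ← pow_mul]
    exact hq _ (Nat.mul_pos hm0 hj)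
  -- sums
  have hm' : m = ∑ i ∈ range d', r (i + 1) + r 0 := by rw [hm, sum_range_succ']
  have hsumge : d' ≤ ∑ i ∈ range d', r (i + 1) := by
    calc d' = ∑ i ∈ range d', 1 := by simp
      _ ≤ _ := sum_le_sum fun i hi => hr (i + 1) (by rw [mem_range] at hi; omega)
  set S1 := ∑ i ∈ range d', r (i + 1) with hS1
  have hN : r 0 * t + S1 * t = n + 1 := by rw [hn, hm']; ring
  have hS1t : 2 ≤ S1 * t := by nlinarith
  have hlt : r 0 * t < n := by omega
  set N := n - r 0 * t with hNdef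
  have hN' : r 0 * t + N = n := by omega
  have hr0t : 1 ≤ r 0 * t := Nat.mul_pos (hr 0 (Nat.zero_le _)) ht0
  have hNn : N < n := by omega
  have hsum : ∑ i ∈ range d', (t * r (i + 1) - 1) < N := by
    have h1 : ∑ i ∈ range d', (t * r (i + 1) - 1) + ∑ i ∈ range d', 1 = S1 * t := by
      rw [← sum_add_distrib, hS1, sum_mul]
      refine sum_congr rfl fun i hi => ?_
      have : 1 ≤ t * r (i + 1) := Nat.mul_pos ht0 (hr (i + 1) (by rw [mem_range] at hi; omega))
      rw [Nat.sub_add_cancel this, mul_comm]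
    simp only [sum_const, card_range, smul_eq_mul, mul_one] at h1
    omega
  have hA : (q ^ n) ^ m = Q ^ n := by rw [hQdef, ← pow_mul, ← pow_mul, mul_comm]
  have hQn0 : Q ^ n ≠ 0 := pow_ne_zero _ hQ0
  have := assembly Q hQ0 hQ hNn d' (fun i => (q ^ n) ^ (2 * ∑ l ∈ range (i + 1), r l) / Q ^ n)
    (fun i => t * r (i + 1)) (fun i hi => Nat.mul_pos ht0 (hr _ (by omega)))
    (fun i hi => by
      have h1 : r (i + 1) ≤ S1 :=
        single_le_sum (f := fun i => r (i + 1)) (fun _ _ => Nat.zero_le _) (mem_range.mpr hi)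
      have h2 : t * r (i + 1) ≤ t * S1 := Nat.mul_le_mul_left _ h1
      have h3 : t * S1 = S1 * t := mul_comm _ _
      show t * r (i + 1) ≤ n
      omega) hsum (Q ^ n)
  rw [← this]
  unfold Fval
  refine sum_congr rfl fun k hk => ?_
  rw [prod_range_succ']
  have f1 : q ^ (m * k) = Q ^ k := by rw [hQdef, pow_mul]
  have f2 : ∀ j ∈ range k, ((q ^ n) ^ m - q ^ (r 0 + m * j) *
      (q ^ n) ^ (∑ l ∈ range 0, r l + ∑ l ∈ range (0 + 1), r l)) =
      Q ^ n * (1 - Q ^ j / Q ^ N) := by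
    intro j _
    rw [hA]
    have g1 : q ^ (r 0 + m * j) * (q ^ n) ^ (∑ l ∈ range 0, r l + ∑ l ∈ range (0 + 1), r l)
        = Q ^ (r 0 * t) * Q ^ j := by
      rw [hQdef]
      simp only [range_zero, sum_empty, zero_add, range_one, sum_singleton]
      rw [← pow_mul, ← pow_mul, ← pow_mul, ← pow_add, ← pow_add]
      congr 1
      calc r 0 + m * j + n * r 0 = (n + 1) * r 0 + m * j := by ring
        _ = m * (r 0 * t) + m * j := by rw [hn]; ring
    have hQN0 : Q ^ N ≠ 0 := pow_ne_zero _ hQ0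
    rw [g1, ← hN', pow_add Q (r 0 * t) N]
    field_simp
  have f3 : ∀ i ∈ range d', ∏ j ∈ range k, ((q ^ n) ^ m - q ^ (r (i + 1) + m * j) *
      (q ^ n) ^ (∑ l ∈ range (i + 1), r l + ∑ l ∈ range (i + 1 + 1), r l))
      = ∏ j ∈ range k, (Q ^ n * (1 - (q ^ n) ^ (2 * ∑ l ∈ range (i + 1), r l) / Q ^ n *
        Q ^ (t * r (i + 1) + j))) := by
    intro i _
    refine prod_congr rfl fun j _ => ?_
    rw [hA]
    have g1 : q ^ (r (i + 1) + m * j) *
        (q ^ n) ^ (∑ l ∈ range (i + 1), r l + ∑ l ∈ range (i + 1 + 1), r l)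
        = (q ^ n) ^ (2 * ∑ l ∈ range (i + 1), r l) * Q ^ (t * r (i + 1) + j) := by
      rw [hQdef, sum_range_succ _ (i + 1)]
      rw [← pow_mul, ← pow_mul, ← pow_mul, ← pow_add, ← pow_add]
      congr 1
      calc _ = n * (2 * ∑ l ∈ range (i + 1), r l) + (n + 1) * r (i + 1) + m * j := by ring
        _ = _ := by rw [hn]; ring
    rw [g1]
    field_simp
  have f4 : ∀ j ∈ Ico k (n - 1), ((q ^ n) ^ m - q ^ (m * (j + 1)) * (q ^ n) ^ m)
      = Q ^ n * (1 - Q ^ (j + 1)) := by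
    intro j _
    rw [hA, hQdef, ← pow_mul q m (j + 1)]
    ring
  have f5 : ∀ i ∈ range d', ∏ j ∈ Ico k (n - 1), ((q ^ n) ^ m - q ^ (m * (j + 1)) *
      (q ^ n) ^ (2 * ∑ l ∈ range (i + 1), r l))
      = ∏ j ∈ Ico k (n - 1), (Q ^ n * (1 - (q ^ n) ^ (2 * ∑ l ∈ range (i + 1), r l) / Q ^ n *
        Q ^ (j + 1))) := by
    intro i _
    refine prod_congr rfl fun j _ => ?_
    rw [hA, pow_mul q m (j + 1), ← hQdef]
    field_simp
  rw [f1, prod_congr rfl f2, prod_congr rfl f3, prod_congr rfl f4, prod_congr rfl f5]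
  ring

/-- second zero: `A = q^{-n}`. -/
lemma Fval_zero_right (hr : ∀ i ≤ d', 1 ≤ r i) (hm : m = ∑ i ∈ range (d' + 1), r i)
    (hd : 2 ≤ d') (hn : n + 1 = m * t) : Fval q (q ^ n)⁻¹ r m d' n = 0 := by
  have hm0 : 0 < m := by
    rcases Nat.eq_zero_or_pos m with h | h
    · rw [h] at hn; omega
    · exact h
  have ht0 : 0 < t := by
    rcases Nat.eq_zero_or_pos t with h | h
    · rw [h] at hn; omega
    · exact h
  set Q := q ^ m with hQdef
  have hQ0 : Q ≠ 0 := pow_ne_zero _ hq0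
  have hQ : ∀ j : ℕ, 0 < j → Q ^ j ≠ 1 := by
    intro j hj
    rw [hQdef, ← pow_mul]
    exact hq _ (Nat.mul_pos hm0 hj)
  -- sums
  have hm' : m = ∑ i ∈ range d', r i + r d' := by rw [hm, sum_range_succ]
  have hsumge : d' ≤ ∑ i ∈ range d', r i := by
    calc d' = ∑ i ∈ range d', 1 := by simp
      _ ≤ _ := sum_le_sum fun i hi => hr i (by rw [mem_range] at hi; omega)
  set S1 := ∑ i ∈ range d', r i with hS1
  have hN : r d' * t + S1 * t = n + 1 := by rw [hn, hm']; ring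
  have hS1t : 2 ≤ S1 * t := by nlinarith
  have hlt : r d' * t < n := by omega
  set N := n - r d' * t with hNdef
  have hN' : r d' * t + N = n := by omega
  have hr0t : 1 ≤ r d' * t := Nat.mul_pos (hr d' le_rfl) ht0
  have hNn : N < n := by omega
  have hsum : ∑ i ∈ range d', (t * r i - 1) < N := by
    have h1 : ∑ i ∈ range d', (t * r i - 1) + ∑ i ∈ range d', 1 = S1 * t := by
      rw [← sum_add_distrib, hS1, sum_mul]
      refine sum_congr rfl fun i hi => ?_
      have : 1 ≤ t * r i := Nat.mul_pos ht0 (hr i (by rw [mem_range] at hi; omega))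
      rw [Nat.sub_add_cancel this, mul_comm]
    simp only [sum_const, card_range, smul_eq_mul, mul_one] at h1
    omega
  have hQn0 : Q ^ n ≠ 0 := pow_ne_zero _ hQ0
  set A : K := (q ^ n)⁻¹ with hAdef
  have hA0 : A ≠ 0 := inv_ne_zero (pow_ne_zero _ hq0)
  have hA : A ^ m = (Q ^ n)⁻¹ := by
    rw [hAdef, inv_pow, hQdef, ← pow_mul, ← pow_mul, mul_comm]
  have hAq : A * q ^ n = 1 := by rw [hAdef]; exact inv_mul_cancel₀ (pow_ne_zero _ hq0)
  set M : K := A ^ m with hMdef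
  have hM0 : M ≠ 0 := pow_ne_zero _ hA0
  have := assembly Q hQ0 hQ hNn d' (fun i => A ^ (2 * ∑ l ∈ range (i + 1), r l) / M)
    (fun i => t * r i) (fun i hi => Nat.mul_pos ht0 (hr _ (by omega)))
    (fun i hi => by
      have h1 : r i ≤ S1 :=
        single_le_sum (f := fun i => r i) (fun _ _ => Nat.zero_le _) (mem_range.mpr hi)
      have h2 : t * r i ≤ t * S1 := Nat.mul_le_mul_left _ h1
      have h3 : t * S1 = S1 * t := mul_comm _ _
      show t * r i ≤ n
      omega) hsum M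
  rw [← this]
  unfold Fval
  refine sum_congr rfl fun k hk => ?_
  rw [prod_range_succ]
  have f1 : q ^ (m * k) = Q ^ k := by rw [hQdef, pow_mul]
  have f2 : ∀ j ∈ range k, (A ^ m - q ^ (r d' + m * j) *
      A ^ (∑ l ∈ range d', r l + ∑ l ∈ range (d' + 1), r l)) =
      M * (1 - Q ^ j / Q ^ N) := by
    intro j _
    have g1 : q ^ (r d' + m * j) * A ^ (∑ l ∈ range d', r l + ∑ l ∈ range (d' + 1), r l)
        = M * (Q ^ j / Q ^ N) := by
      have g2 : A ^ (∑ l ∈ range d', r l + ∑ l ∈ range (d' + 1), r l) = A ^ S1 * M := by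
        rw [pow_add, ← hm]
      have g3 : Q ^ N ≠ 0 := pow_ne_zero _ hQ0
      rw [g2]
      have g4 : A ^ S1 * (q ^ n) ^ S1 = 1 := by rw [← mul_pow, hAq, one_pow]
      have g5 : q ^ (r d') * Q ^ N = (q ^ n) ^ S1 := by
        rw [hQdef, ← pow_mul, ← pow_mul, ← pow_add]
        congr 1
        have e1 : m * N + m * (r d' * t) = m * n := by rw [← mul_add, add_comm N, hN']
        have e2 : m * (r d' * t) = (n + 1) * r d' := by rw [hn]; ring
        have e3 : m * n = S1 * n + r d' * n := by rw [hm']; ring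
        rw [e2, e3] at e1
        have e4 : (n + 1) * r d' = r d' * n + r d' := by ring
        rw [e4] at e1
        have e5 : n * S1 = S1 * n := mul_comm _ _
        omega
      have g6 : q ^ (r d' + m * j) = q ^ (r d') * Q ^ j := by
        rw [pow_add, hQdef, ← pow_mul]
      rw [g6]
      rw [mul_div_assoc', eq_div_iff g3]
      calc q ^ r d' * Q ^ j * (A ^ S1 * M) * Q ^ N
          = (A ^ S1 * (q ^ r d' * Q ^ N)) * (M * Q ^ j) := by ring
        _ = M * Q ^ j := by rw [g5, g4, one_mul]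
    rw [g1, hMdef]
    ring
  have f3 : ∀ i ∈ range d', ∏ j ∈ range k, (A ^ m - q ^ (r i + m * j) *
      A ^ (∑ l ∈ range i, r l + ∑ l ∈ range (i + 1), r l))
      = ∏ j ∈ range k, (M * (1 - A ^ (2 * ∑ l ∈ range (i + 1), r l) / M *
        Q ^ (t * r i + j))) := by
    intro i _
    refine prod_congr rfl fun j _ => ?_
    have g1 : q ^ (r i + m * j) *
        A ^ (∑ l ∈ range i, r l + ∑ l ∈ range (i + 1), r l)
        = A ^ (2 * ∑ l ∈ range (i + 1), r l) * Q ^ (t * r i + j) := by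
      have e0 : 2 * ∑ l ∈ range (i + 1), r l
          = (∑ l ∈ range i, r l + ∑ l ∈ range (i + 1), r l) + r i := by
        rw [sum_range_succ _ i]; ring
      have e1 : Q ^ (t * r i + j) = q ^ (r i + m * j) * (q ^ n) ^ (r i) := by
        rw [hQdef, ← pow_mul, ← pow_mul, ← pow_add]
        congr 1
        calc m * (t * r i + j) = (n + 1) * r i + m * j := by rw [hn]; ring
          _ = _ := by ring
      have e2 : A ^ (r i) * (q ^ n) ^ (r i) = 1 := by rw [← mul_pow, hAq, one_pow]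
      rw [e0, pow_add A _ (r i), e1]
      calc _ = q ^ (r i + m * j) * A ^ (∑ l ∈ range i, r l + ∑ l ∈ range (i + 1), r l) * 1 := by
            ring
        _ = _ := by rw [← e2]; ring
    rw [g1, ← hMdef]
    field_simp
  have f4 : ∀ j ∈ Ico k (n - 1), (A ^ m - q ^ (m * (j + 1)) * A ^ m)
      = M * (1 - Q ^ (j + 1)) := by
    intro j _
    rw [hMdef, hQdef, ← pow_mul q m (j + 1)]
    ring
  have f5 : ∀ i ∈ range d', ∏ j ∈ Ico k (n - 1), (A ^ m - q ^ (m * (j + 1)) *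
      A ^ (2 * ∑ l ∈ range (i + 1), r l))
      = ∏ j ∈ Ico k (n - 1), (M * (1 - A ^ (2 * ∑ l ∈ range (i + 1), r l) / M *
        Q ^ (j + 1))) := by
    intro i _
    refine prod_congr rfl fun j _ => ?_
    rw [pow_mul q m (j + 1), ← hQdef, ← hMdef]
    field_simp
  rw [f1, prod_congr rfl f2, prod_congr rfl f3, prod_congr rfl f4, prod_congr rfl f5]
  ring

end field

end Pool.Agent.H32.QMain
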